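import Pool.Agent.X290.Reg.Ex
import Pool.Agent.X290.Reg.AV
/-!
# `p`-adic independence of rational points of abelian varieties with good reduction outside `p`

Let `K` be a number field and `K'/K` a finite Galois extension such that `K'` has exactly one prime
above `p` and no Galois extension of `p`-power degree, other than itself, which is unramified at all
finite primes (for `K = ℚ`: `K' = ℚ(i)` for `p = 2`, `K' = ℚ(ζ_p)` for `p = 3, 5, 7`). Let `M` be a
discrete module for `G_K` with the following properties of the group of points over `Kbar` of an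
abelian variety over `K` with good reduction outside `p`, for which the Galois group of the field of
`p`-torsion points over `K'` is a `p`-group: if `p^n y` is rational, `y` is unramified outside `p`; and
every element of `G_{K'}` acts on every `y` with `p y = 0` through an element of `p`-power order.
Then a point `y` which is fixed by the decomposition group at `p` (a point over `K_p`) and such that
`p^n y` is rational is itself rational. If the group of rational points is finitely generated,
rational points which are independent over `ℤ` are independent over `ℤ_p` in the `p`-adic completion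
of the group of points over `K_p`: the closure of the group they generate has full rank.
-/

set_option autoImplicit false

open NumberField

namespace Pool.Agent.Results.MP_52423f_nt.GoodReductionOutsideP

/-- The absolute Galois group of `K`. -/
abbrev G (K : Type) [Field K] : Type := Gal(AlgebraicClosure K/K)

/-- The ring of all algebraic integers. -/
abbrev Z (K : Type) [Field K] : Type := 𝓞 (AlgebraicClosure K)

/-- The field `M` (with all number fields `M'` isomorphic to it) has no Galois extension of degree a
power of `p`, different from `1`, which is unramified at all maximal ideals. -/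
def NoUnramified (p : ℕ) (M : Type) [Field M] : Prop :=
  ∀ (M' L : Type) [Field M'] [NumberField M'] [Field L] [NumberField L] [Algebra M' L]
    [IsGalois M' L], Nonempty (M' ≃+* M) →
    (∀ (Q : Ideal (𝓞 L)) [Q.IsMaximal], Algebra.IsUnramifiedAt (𝓞 M') Q) →
      ∀ k : ℕ, Module.finrank M' L = p ^ k → k = 0

/-- There is at most one maximal ideal above `p`. -/
def OnePrime (p : ℕ) (M : Type) [Field M] : Prop :=
  ∀ P Q : Ideal (𝓞 M), P.IsMaximal → Q.IsMaximal → (p : 𝓞 M) ∈ P → (p : 𝓞 M) ∈ Q → P = Q

/-- The conditions on the field `K'`. -/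
def Base {K : Type} [Field K] (p : ℕ) (K' : IntermediateField K (AlgebraicClosure K)) : Prop :=
  FiniteDimensional K K' ∧ IsGalois K K' ∧ NoUnramified p K' ∧ OnePrime p K'

variable {K : Type} [Field K]

/-- The inertia group at the prime ideal `P` of the ring of all algebraic integers. -/
def Inertia (P : Ideal (Z K)) : Set (G K) := {τ | ∀ x : Z K, τ • x - x ∈ P}

/-- The decomposition group at the prime ideal `P` of the ring of all algebraic integers. -/
def Decomposition (P : Ideal (Z K)) : Set (G K) := {g | ∀ x : Z K, g • x ∈ P ↔ x ∈ P}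

variable (M : Type) [AddCommGroup M] [DistribMulAction (G K) M]

/-- The group of rational points of `M`. -/
def Rational : AddSubgroup M where
  carrier := {y | ∀ g : G K, g • y = y}
  add_mem' {x y} hx hy g := by rw [smul_add, hx g, hy g]
  zero_mem' g := smul_zero g
  neg_mem' {x} hx g := by rw [smul_neg, hx g]

/-- The points over the completion at `P`. -/
def Local (P : Ideal (Z K)) : Set M := {y | ∀ d ∈ Decomposition P, d • y = y}

/-- The conditions on the Galois module `M`: it is discrete; if `p ^ n • y` is rational, `y` is
unramified outside `p`; the elements of `Gal(Kbar/K')` act on the `p`-torsion points through elements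
of `p`-power order. -/
def PointsLike (p : ℕ) (K' : IntermediateField K (AlgebraicClosure K)) : Prop :=
  (∀ y : M, IsOpen (MulAction.stabilizer (G K) y : Set (G K))) ∧
  (∀ (n : ℕ) (y : M), p ^ n • y ∈ Rational (K := K) M → ∀ Q : Ideal (Z K), Q.IsMaximal →
    (p : Z K) ∉ Q → ∀ τ ∈ Inertia Q, τ • y = y) ∧
  ∀ y : M, p • y = 0 → ∀ u ∈ K'.fixingSubgroup, ∃ k : ℕ, u ^ p ^ k • y = y

/-- A point over the completion, a `p`-power multiple of which is rational, is rational. -/
def Saturated (p : ℕ) (P : Ideal (Z K)) : Prop :=
  ∀ n : ℕ, ∀ y ∈ Local M P, p ^ n • y ∈ Rational (K := K) M → y ∈ Rational (K := K) M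

/-- A point fixed by inertia, a `p`-power multiple of which is rational, is defined over `K'`. -/
def SaturatedInertia (p : ℕ) (K' : IntermediateField K (AlgebraicClosure K))
    (P : Ideal (Z K)) : Prop :=
  ∀ (n : ℕ) (y : M), p ^ n • y ∈ Rational (K := K) M →
    (∀ h ∈ K'.fixingSubgroup, h ∈ Inertia P → h • y = y) → ∀ u ∈ K'.fixingSubgroup, u • y = y

/-- Rational points `x i`, independent over `ℤ`, are independent over `ℤ_p` in the `p`-adic
completion of the group of points over the completion: if the `a i` are `p`-adic integers such that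
for all `n` some integral combination `∑ b i x i` with `b i` congruent to `a i` modulo `p ^ n` is
`p ^ n` times a point over the completion, then all `a i` are `0`. -/
def Independent (p : ℕ) [Fact p.Prime] (P : Ideal (Z K)) : Prop :=
  Module.Finite ℤ (Rational (K := K) M) →
    ∀ (r : ℕ) (x : Fin r → Rational (K := K) M), LinearIndependent ℤ x → ∀ a : Fin r → ℤ_[p],
      (∀ n : ℕ, ∃ b : Fin r → ℤ, (∀ i, (b i : ℤ_[p]) - a i ∈ Ideal.span {(p : ℤ_[p]) ^ n}) ∧
        ∃ y ∈ Local M P, ∑ i, b i • (x i : M) = p ^ n • y) → a = 0

/-- The fields generated by roots of unity of order `3`, `4`, `5`, `12` (for every prime `p`) and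
`7` (for `p = 7`). -/
def Example (p : ℕ) (M : Type) [Field M] [NumberField M] : Prop :=
  IsCyclotomicExtension {3} ℚ M ∨ IsCyclotomicExtension {4} ℚ M ∨ IsCyclotomicExtension {5} ℚ M ∨
    IsCyclotomicExtension {12} ℚ M ∨ (p = 7 ∧ IsCyclotomicExtension {7} ℚ M)

omit [AddCommGroup M] in
/-- The theorem. -/
theorem result :
    (∀ (p : ℕ) [Fact p.Prime] (K : Type) [Field K] [NumberField K]
      (K' : IntermediateField K (AlgebraicClosure K)), Base p K' →
      ∀ P : Ideal (Z K), P.IsMaximal → (p : Z K) ∈ P →
      ∀ (M : Type) [AddCommGroup M] [DistribMulAction (G K) M], PointsLike M p K' →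
        Saturated M p P ∧ SaturatedInertia M p K' P ∧ Independent M p P) ∧
    ∀ p : ℕ, p.Prime → ∀ (M : Type) [Field M] [NumberField M], Example p M → NoUnramified p M := by
  refine ⟨?_, ?_⟩
  · rintro p hpf K _ _ K' ⟨_, _, hNU, hone⟩ P hP hpP M _ _ ⟨hst, hur, hpow⟩
    have e : IntermediateField.fixedField K'.fixingSubgroup = K' :=
      InfiniteGalois.fixedField_fixingSubgroup K'
    have hUn : K'.fixingSubgroup.Normal :=
      (InfiniteGalois.normal_iff_isGalois K').2 inferInstance
    have hUo : IsOpen (K'.fixingSubgroup : Set Gal(AlgebraicClosure K/K)) :=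
      (InfiniteGalois.isOpen_iff_finite K').2 inferInstance
    have hNU' : Pool.Agent.X290.Reg.NoUnrF p
        (IntermediateField.fixedField K'.fixingSubgroup) := by rw [e]; exact hNU
    have hone' : Pool.Agent.X290.Reg.OnePrime p
        (IntermediateField.fixedField K'.fixingSubgroup) := by rw [e]; exact hone
    have hrat : ∀ (n : ℕ) (y : M), p ^ n • y ∈ Rational (K := K) M → ∀ g : G K,
        p ^ n • (g • y) ∈ Rational (K := K) M := by
      intro n y hy g
      have h1 : p ^ n • (g • y) = p ^ n • y := by
        rw [← smul_comm g (p ^ n) y]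
        exact hy g
      rw [h1]
      exact hy
    have key : ∀ (n : ℕ) (y : M), p ^ n • y ∈ Rational (K := K) M →
        (∀ u ∈ K'.fixingSubgroup, ∃ h : G K, h ∈ Inertia P ∧ h ∈ K'.fixingSubgroup ∧
          h • y = u • y) ∧
        ∀ g : G K, ∃ d : G K, d ∈ Decomposition P ∧ d • y = g • y := by
      intro n y hy
      exact Pool.Agent.X290.Reg.orbit_values K'.fixingSubgroup hUo hNU' hone' hP hpP y (hst y)
        (fun Q hQ hpQ τ hτ g => hur n (g • y) (hrat n y hy g) Q hQ hpQ τ hτ)
        (fun u hu g => Pool.Agent.X290.Reg.ppow K'.fixingSubgroup hpow n (g • y) u hu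
          (hrat n y hy g u))
    have hsat : Saturated M p P := by
      intro n y hyL hy g
      obtain ⟨d, hd, h⟩ := (key n y hy).2 g
      rw [← h]
      exact hyL d hd
    refine ⟨hsat, ?_, ?_⟩
    · intro n y hy hI u hu
      obtain ⟨h, hh, hhU, h2⟩ := (key n y hy).1 u hu
      rw [← h2]
      exact hI h hhU hh
    · intro hfg r x hx a ha
      refine Pool.Agent.X290.Reg.fg_indep x hx a fun n => ?_
      obtain ⟨b, hb, y, hy, h⟩ := ha n
      refine ⟨b, hb, ?_⟩
      have h1 : p ^ n • y ∈ Rational (K := K) M := by
        rw [← h]
        exact AddSubgroup.sum_mem _ fun i _ => AddSubgroup.zsmul_mem _ (x i).2 _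
      refine ⟨⟨y, hsat n y hy h1⟩, ?_⟩
      apply Subtype.ext
      rw [AddSubgroup.val_finset_sum]
      exact h
  · rintro p hp M _ _ (h | h | h | h | ⟨rfl, h⟩)
    · exact Pool.Agent.X290.Reg.noUnrF3 hp M
    · exact Pool.Agent.X290.Reg.noUnrF4 hp M
    · exact Pool.Agent.X290.Reg.noUnrF5 hp M
    · exact Pool.Agent.X290.Reg.noUnrF12 hp M
    · exact Pool.Agent.X290.Reg.noUnrF7 M

end Pool.Agent.Results.MP_52423f_nt.GoodReductionOutsideP
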