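import Pool.Agent.X268.PC.Main

/-!
# The `p`-adic closure of a group of rational points lying on a line over commuting endomorphisms

Let `A` be a simple abelian variety over `ℚ` of dimension `n`, let `p` be any prime, and let `L` be a
subgroup of `A(ℚ)`. The question Q1 is whether the closure of `L` in `A(ℚ_p)` has `ℤ_p`-rank equal to
the rank `m` of `L` when `m ≤ n`. The answer is known for `n = 1` (and trivially for `m ≤ 1`).

**Theorem.** The closure of `L` in `A(ℚ_p)` has `ℤ_p`-rank equal to the rank of `L` in the following cases.

1. There are a commutative ring `C ⊂ End_ℚ(A)` and a `C`-stable subgroup `N` of `A(ℚ)` containing `L`,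
   with `rank N ≤ rank C`. In other words, `L` lies on a line over the number field `F = C ⊗ ℚ`. There is no
   other condition on `A`, on `p` or on the rank of `L` (which can be any number between `0` and
   `[F : ℚ]`).
2. `L` has rank at most two, and lies on a line over `End_ℚ(A) ⊗ ℚ` (which may be noncommutative).
3. `End_ℚ(A)` is commutative and `rank A(ℚ) ≤ rank End_ℚ(A)`; then every subgroup `L` of `A(ℚ)` has the property.
   For example, if `A` is of `GL₂`-type, so that `rank End_ℚ(A) = n`, then Q1 has the positive answer for
   the Mordell–Weil group `A(ℚ)` if its rank is at most `n`, and for all its subgroups. (By Gross–Zagier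
   and Kolyvagin this applies to the simple modular abelian varieties of analytic rank at most one.)

The only deep fact used is the `p`-adic analytic subgroup theorem (`SimpleAV.analytic_subgroup`).

The proof: a relation over `ℚ_p` between the logarithms of the points `g_i(θ) x` is a relation
`G(Θ) log x = 0`, where `Θ` is the action of `θ` on the Lie algebra and `G` is a polynomial with `p`-adic
coefficients, to which the analytic subgroup theorem does not apply. But the monic greatest common
divisor `h` of `G` and of the minimal polynomial of `Θ` has algebraic coefficients, and `h(Θ) log x = 0`;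
so `h(Θ) = 0` by the analytic subgroup theorem, and `G(Θ) = 0`. This gives a relation between the
`g_i(Θ)`, which are independent over `ℚ`, hence over `ℚ_p`.
-/

set_option autoImplicit false

namespace Pool.Agent.Results.MP_52423f_nt.LinesOverEndomorphisms

open Pool.Agent.X268.PC

/-- **The closure of `L` in `A(ℚ_p)` has `ℤ_p`-rank equal to the rank of `L`, if `L` lies on a line over a
commutative ring of endomorphisms.** -/
theorem result {p : ℕ} [Fact p.Prime] {n : ℕ} {M R P : Type} [AddCommGroup M] [Ring R]
    [Module R M] [AddCommGroup P] [TopologicalSpace P] [IsTopologicalAddGroup P]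
    [CompactSpace P] [T2Space P] (S : SimpleAV p n M R P) :
    -- lines over a commutative ring of endomorphisms
    (∀ C : Subring R, (∀ a ∈ C, ∀ b ∈ C, a * b = b * a) →
      ∀ N : AddSubgroup M, (∀ a ∈ C, ∀ y ∈ N, a • y ∈ N) →
        Module.finrank ℤ N ≤ Module.finrank ℤ C →
        ∀ L : AddSubgroup M, L ≤ N →
          HasZpRank p (L.map S.emb).topologicalClosure (Module.finrank ℤ L)) ∧
    -- subgroups of rank at most two of lines over all endomorphisms
    (∀ (x : M) (L : AddSubgroup M), (∀ y ∈ L, ∃ k : ℤ, k ≠ 0 ∧ ∃ r : R, k • y = r • x) →
      Module.finrank ℤ L ≤ 2 →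
        HasZpRank p (L.map S.emb).topologicalClosure (Module.finrank ℤ L)) ∧
    -- all subgroups of the Mordell–Weil group, if it is itself a line
    ((∀ a b : R, a * b = b * a) → Module.finrank ℤ M ≤ Module.finrank ℤ R →
      ∀ L : AddSubgroup M, HasZpRank p (L.map S.emb).topologicalClosure (Module.finrank ℤ L)) := by
  refine ⟨commutative_case S, rank_two_case S, fun hcomm hrk L => ?_⟩
  refine commutative_case S ⊤ (fun a _ b _ => hcomm a b) ⊤ (fun _ _ _ _ => trivial) ?_ L le_top
  have h1 : Module.finrank ℤ (⊤ : AddSubgroup M) = Module.finrank ℤ M :=
    LinearEquiv.finrank_eq (AddSubgroup.topEquiv.toIntLinearEquiv)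
  have h2 : Module.finrank ℤ (⊤ : Subring R) = Module.finrank ℤ R :=
    LinearEquiv.finrank_eq (Subring.topEquiv.toAddEquiv.toIntLinearEquiv)
  rw [h1, h2]
  exact hrk

end Pool.Agent.Results.MP_52423f_nt.LinesOverEndomorphisms
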