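import Pool.Agent.X298.DA.Fin

/-!
# The `p`-adic closures of groups of rational points of a simple abelian variety: one finite family of
# polynomials for all primes

Let `A` be a simple abelian variety over `ℚ` of dimension `n`. By simplicity `R = End_ℚ(A)` has no zero
divisors. A *basis* is a family of points `x_1, …, x_h` of `A(ℚ)`, independent over `R`, such that every
point has a nonzero integral multiple in `R x_1 + … + R x_h`.

**Theorem.**

1. Bases exist.
2. Let `x` be a basis and `L` a subgroup of `A(ℚ)` of rank `m ≤ n`. There is a finite family of homogeneous
   polynomials `G_c` of degree `m` with rational coefficients in `h n` variables, **not all zero and not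
   depending on the prime**, such that for every prime `p` the closure of `L` in `A(ℚ_p)` has
   `ℤ_p`-rank `m` if and only if the `G_c` do not all vanish at the coordinates of the `p`-adic
   logarithms of `x_1, …, x_h`.
3. In particular, if the `h n` coordinates of the logarithms are algebraically independent over `ℚ` (which is what
   the conjecture on algebraic independence of logarithms predicts for a simple `A`), then the closure of every
   subgroup `L` of rank `m ≤ n` has `ℤ_p`-rank `m`. In other words, for a simple abelian variety there is no
   algebraic obstruction of the kind known for `E × E × E`: there the rank drops because of an identity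
   between polynomials, a skew symmetric determinant of order three, and all the `G_c` are zero.
4. If the `ℚ_p`-algebra `End_ℚ(A) ⊗ ℚ_p` is a division algebra, then the closure of every subgroup `L` of every
   `End_ℚ(A)`-line in `A(ℚ)` has the right rank.

The heart of the matter is that the `G_c` are not all zero, which is a statement on vector spaces over a division
algebra `D` over an infinite field `k`: *if `V` is a finite dimensional `D`-module and `W` a `k`-subspace of `D^h`
with `dim_k W ≤ dim_k V`, then some `D`-linear map `D^h → V` is injective on `W`*. The proof is by induction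
on `h`: if `h` is larger than `dim_D V`, there is a line `D v` which meets `W` in zero only (the vectors of `D W`
satisfy a nonzero polynomial equation, by counting parameters), and `D^h` may be replaced by `D^h / D v`.
-/

set_option autoImplicit false

namespace Pool.Agent.Results.MP_52423f_nt.OneRelationForAllPrimes

open MvPolynomial Pool.Agent.X268.PC Pool.Agent.X298.DA

theorem result {n : ℕ} {M R : Type} [AddCommGroup M] [Ring R] [Module R M]
    (hn : 1 ≤ n) (hM : Module.Finite ℤ M) (hR : Module.Finite ℤ R)
    (hdom : ∀ r s : R, r * s = 0 → r = 0 ∨ s = 0)
    (lie : R →+* Matrix (Fin n) (Fin n) ℚ) (hlie : Function.Injective lie) :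
    -- bases exist
    (∃ (h : ℕ) (x : Fin h → M), IsEndBasis R x) ∧
    -- one finite family of polynomials for all primes
    (∀ (h : ℕ) (x : Fin h → M), IsEndBasis R x →
      ∀ L : AddSubgroup M, Module.finrank ℤ L ≤ n →
        ∃ G : (Fin (Module.finrank ℤ L) → Fin n) → MvPolynomial (Fin h × Fin n) ℚ,
          (∀ c, (G c).IsHomogeneous (Module.finrank ℤ L)) ∧ (∃ c, G c ≠ 0) ∧
          ∀ (p : ℕ) [Fact p.Prime] (P : Type) [AddCommGroup P] [TopologicalSpace P]
            [IsTopologicalAddGroup P] [CompactSpace P] [T2Space P] (S : SimpleAV p n M R P),
            S.lie = lie →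
              (HasZpRank p (L.map S.emb).topologicalClosure (Module.finrank ℤ L) ↔
                ∃ c, aeval (fun i : Fin h × Fin n => S.lg (S.emb (x i.1)) i.2) (G c) ≠ 0)) ∧
    -- algebraically independent logarithms
    (∀ (h : ℕ) (x : Fin h → M), IsEndBasis R x →
      ∀ (p : ℕ) [Fact p.Prime] (P : Type) [AddCommGroup P] [TopologicalSpace P]
        [IsTopologicalAddGroup P] [CompactSpace P] [T2Space P] (S : SimpleAV p n M R P),
        AlgebraicIndependent ℚ (fun i : Fin h × Fin n => S.lg (S.emb (x i.1)) i.2) →
          ∀ L : AddSubgroup M, Module.finrank ℤ L ≤ n →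
            HasZpRank p (L.map S.emb).topologicalClosure (Module.finrank ℤ L)) ∧
    -- primes at which the endomorphism algebra remains a division algebra
    (∀ (p : ℕ) [Fact p.Prime] (P : Type) [AddCommGroup P] [TopologicalSpace P]
        [IsTopologicalAddGroup P] [CompactSpace P] [T2Space P] (S : SimpleAV p n M R P),
        (∀ B ∈ Submodule.span ℚ_[p]
          (Set.range fun r : R => (S.lie r).map (algebraMap ℚ ℚ_[p])), B ≠ 0 → IsUnit B) →
        ∀ (x : M) (L : AddSubgroup M), (∀ y ∈ L, ∃ k : ℤ, k ≠ 0 ∧ ∃ r : R, k • y = r • x) →
          HasZpRank p (L.map S.emb).topologicalClosure (Module.finrank ℤ L)) :=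
  ⟨exists_endBasis (charZero_of_lie hn lie) hM hR hdom,
    fun _ x hx L hL => main hn hM hdom lie hlie x hx L hL,
    fun _ x hx _ _ _ _ _ _ _ _ S hS L hL => of_algebraicIndependent hM x hx S hS L hL,
    fun _ _ _ _ _ _ _ _ S hdiv x L hL => division_case S hdiv x L hL⟩

end Pool.Agent.Results.MP_52423f_nt.OneRelationForAllPrimes
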